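import Pool.Agent.Y208.BH.Stm

set_option autoImplicit false

/-!
# Project BH: transvections and double transitivity
-/

namespace Pool.Agent.Y891.BH

open Y208.BH

section

variable {R V I : Type} [Ring R] [AddCommGroup V] [Module R V]

theorem pr_zero_left (w : I →₀ V) : pr (0 : I →₀ R) w = 0 := by
  unfold pr
  exact Finsupp.sum_zero_index

theorem pr_add_left (ζ ζ' : I →₀ R) (w : I →₀ V) : pr (ζ + ζ') w = pr ζ w + pr ζ' w := by
  classical
  unfold pr
  exact Finsupp.sum_add_index' (fun j => zero_smul _ _) (fun j a b => add_smul _ _ _)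

theorem pr_single_left (q : I) (b : R) (w : I →₀ V) : pr (Finsupp.single q b) w = b • w q := by
  unfold pr
  exact Finsupp.sum_single_index (zero_smul _ _)

theorem pr_smul_left (r : R) (ζ : I →₀ R) (w : I →₀ V) : pr (r • ζ) w = r • pr ζ w := by
  classical
  induction ζ using Finsupp.induction with
  | zero => rw [smul_zero, pr_zero_left, smul_zero]
  | single_add a b f _ _ ih =>
    rw [smul_add, pr_add_left, pr_add_left, ih, Finsupp.smul_single, pr_single_left,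
      pr_single_left, smul_add, smul_eq_mul, mul_smul]

theorem pr_add_right (ζ : I →₀ R) (w w' : I →₀ V) : pr ζ (w + w') = pr ζ w + pr ζ w' := by
  unfold pr
  rw [← Finsupp.sum_add]
  refine Finsupp.sum_congr fun j _ => ?_
  rw [Finsupp.add_apply, smul_add]

theorem pr_single_right (ζ : I →₀ R) (f : I) (x : V) (hf : ζ f = 0) :
    pr ζ (Finsupp.single f x) = 0 := by
  unfold pr
  refine Finset.sum_eq_zero fun j hj => ?_
  have hjf : j ≠ f := by
    rintro rfl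
    exact (Finsupp.mem_support_iff.1 hj) hf
  show ζ j • (Finsupp.single f x) j = 0
  rw [Finsupp.single_eq_of_ne hjf, smul_zero]

/-- the multiple of a column by a vector -/
noncomputable def sc (ξ : I →₀ R) (v : V) : I →₀ V :=
  ξ.mapRange (fun a => a • v) (zero_smul _ _)

theorem sc_apply (ξ : I →₀ R) (v : V) (j : I) : sc ξ v j = ξ j • v := Finsupp.mapRange_apply ..

theorem pr_sc (ζ ξ : I →₀ R) (v : V) : pr ζ (sc ξ v) = pr ζ ξ • v := by
  show ∑ j ∈ ζ.support, ζ j • (sc ξ v) j = (∑ j ∈ ζ.support, ζ j • ξ j) • v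
  rw [Finset.sum_smul]
  refine Finset.sum_congr rfl fun j _ => ?_
  rw [sc_apply, smul_smul, smul_eq_mul]

theorem sc_add (ξ : I →₀ R) (v v' : V) : sc ξ (v + v') = sc ξ v + sc ξ v' := by
  ext j
  rw [Finsupp.add_apply, sc_apply, sc_apply, sc_apply, smul_add]

theorem sc_zero (ξ : I →₀ R) : sc ξ (0 : V) = 0 := by
  ext j
  rw [sc_apply, smul_zero]
  rfl

theorem tv_eq (ξ ζ : I →₀ R) (w : I →₀ V) : tv ξ ζ w = w + sc ξ (pr ζ w) := rfl

/-- `w ↦ w + e_f ζ(w)` -/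
theorem rowB (H : Subgroup (Equiv.Perm (I →₀ V))) (f : I) (ζ : I →₀ R) :
    ζ f = 0 → (∀ q, q ≠ f → ζ q ≠ 0 → el f q (ζ q) ∈ H) →
    ∃ g ∈ H, ∀ w, g w = w + Finsupp.single f (pr ζ w) := by
  classical
  induction ζ using Finsupp.induction with
  | zero =>
    intro _ _
    refine ⟨1, H.one_mem, fun w => ?_⟩
    rw [pr_zero_left, Finsupp.single_zero, add_zero]
    rfl
  | single_add q b ζ hq hb ih =>
    intro hf hH
    have hζq : ζ q = 0 := Finsupp.notMem_support_iff.1 hq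
    have hqf : q ≠ f := by
      rintro rfl
      rw [Finsupp.add_apply, Finsupp.single_eq_same, hζq, add_zero] at hf
      exact hb hf
    have hζf : ζ f = 0 := by
      rwa [Finsupp.add_apply, Finsupp.single_eq_of_ne hqf.symm, zero_add] at hf
    obtain ⟨g, hg, hg'⟩ := ih hζf (by
      intro p hp hp0
      have hpq : p ≠ q := by
        rintro rfl
        exact hp0 hζq
      have h1 := hH p hp
      rw [Finsupp.add_apply, Finsupp.single_eq_of_ne hpq, zero_add] at h1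
      exact h1 hp0)
    have h2 := hH q hqf
    rw [Finsupp.add_apply, Finsupp.single_eq_same, hζq, add_zero] at h2
    refine ⟨el f q b * g, H.mul_mem (h2 hb) hg, fun w => ?_⟩
    rw [Equiv.Perm.mul_apply, hg', el_apply hqf.symm, Finsupp.add_apply,
      Finsupp.single_eq_of_ne hqf, add_zero, pr_add_left, pr_single_left, add_assoc,
      ← Finsupp.single_add, add_comm (pr ζ w)]

/-- `w ↦ w + ξ w_f` -/
theorem colA (H : Subgroup (Equiv.Perm (I →₀ V))) (f : I) (ξ : I →₀ R) :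
    ξ f = 0 → (∀ p, p ≠ f → ξ p ≠ 0 → el p f (ξ p) ∈ H) →
    ∃ g ∈ H, ∀ w : I →₀ V, g w = w + sc ξ (w f) := by
  classical
  induction ξ using Finsupp.induction with
  | zero =>
    intro _ _
    refine ⟨1, H.one_mem, fun w => ?_⟩
    have h0 : sc (0 : I →₀ R) (w f) = 0 := by
      ext j
      rw [sc_apply, Finsupp.zero_apply, zero_smul]
      rfl
    rw [h0, add_zero]
    rfl
  | single_add q b ξ hq hb ih =>
    intro hf hH
    have hξq : ξ q = 0 := Finsupp.notMem_support_iff.1 hq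
    have hqf : q ≠ f := by
      rintro rfl
      rw [Finsupp.add_apply, Finsupp.single_eq_same, hξq, add_zero] at hf
      exact hb hf
    have hξf : ξ f = 0 := by
      rwa [Finsupp.add_apply, Finsupp.single_eq_of_ne hqf.symm, zero_add] at hf
    obtain ⟨g, hg, hg'⟩ := ih hξf (by
      intro p hp hp0
      have hpq : p ≠ q := by
        rintro rfl
        exact hp0 hξq
      have h1 := hH p hp
      rw [Finsupp.add_apply, Finsupp.single_eq_of_ne hpq, zero_add] at h1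
      exact h1 hp0)
    have h2 := hH q hqf
    rw [Finsupp.add_apply, Finsupp.single_eq_same, hξq, add_zero] at h2
    refine ⟨el q f b * g, H.mul_mem (h2 hb) hg, fun w => ?_⟩
    rw [Equiv.Perm.mul_apply, hg', el_apply hqf, Finsupp.add_apply, sc_apply, hξf,
      zero_smul, add_zero]
    ext j
    rw [Finsupp.add_apply, Finsupp.add_apply, Finsupp.add_apply, sc_apply,
      sc_apply, Finsupp.add_apply, add_smul]
    by_cases hj : j = q
    · subst hj
      rw [Finsupp.single_eq_same, Finsupp.single_eq_same]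
      abel
    · rw [Finsupp.single_eq_of_ne hj, Finsupp.single_eq_of_ne hj, zero_smul]
      abel

end

theorem t_TV : S_TV := by
  classical
  intro R V I _ _ _ _ v0 m ξ ζ hζξ hm
  obtain ⟨f, hf⟩ := Infinite.exists_notMem_finset (ξ.support ∪ ζ.support ∪ {m})
  rw [Finset.mem_union, Finset.mem_union, Finset.mem_singleton, not_or, not_or,
    Finsupp.notMem_support_iff, Finsupp.notMem_support_iff] at hf
  obtain ⟨⟨hξf, hζf⟩, hfm⟩ := hf
  obtain ⟨A, hA, hA'⟩ := colA (V := V) (PS R V I v0 m) f ξ hξf (fun p hp _ =>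
    Subgroup.subset_closure ⟨p, f, ξ p, hp, Or.inl hfm, rfl⟩)
  obtain ⟨B, hB, hB'⟩ := rowB (V := V) (PS R V I v0 m) f ζ hζf (fun q hq _ => by
    refine Subgroup.subset_closure ⟨f, q, ζ q, hq.symm, ?_, rfl⟩
    by_cases h : q = m
    · right
      rw [h]
      exact hm
    · exact Or.inl h)
  refine ⟨A * B * A⁻¹ * B⁻¹, (PS R V I v0 m).mul_mem ((PS R V I v0 m).mul_mem
    ((PS R V I v0 m).mul_mem hA hB) ((PS R V I v0 m).inv_mem hA)) ((PS R V I v0 m).inv_mem hB), ?_⟩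
  have key : ∀ w, A (B w) = tv ξ ζ (B (A w)) := by
    intro w
    have e1 : pr ζ (A w) = pr ζ w := by
      rw [hA', pr_add_right, pr_sc, hζξ, zero_smul, add_zero]
    have e2 : pr ζ (B (A w)) = pr ζ w := by
      rw [hB', pr_add_right, pr_single_right ζ f _ hζf, add_zero, e1]
    have e3 : (B w) f = w f + pr ζ w := by
      rw [hB', Finsupp.add_apply, Finsupp.single_eq_same]
    rw [tv_eq, e2, hB' (A w), e1, hA' (B w), e3, sc_add, hB' w, hA' w]
    abel
  intro w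
  have h1 := key (A⁻¹ (B⁻¹ w))
  have h2 : A (A⁻¹ (B⁻¹ w)) = B⁻¹ w := A.apply_symm_apply _
  have h3 : B (B⁻¹ w) = w := B.apply_symm_apply _
  rw [h2, h3] at h1
  exact h1

section tr

variable {R V I : Type} [Ring R] [AddCommGroup V] [Module R V]

theorem row_ne {v0 : V} (hG : Good R V v0) (w₁ w₂ : I →₀ V) (_h1 : w₁ ≠ 0) (h2 : w₂ ≠ 0)
    (h12 : w₁ ≠ w₂) : ∃ η : I →₀ R, pr η w₁ = 0 ∧ pr η w₂ ≠ 0 ∧
      ∀ a, w₁ a = 0 → w₂ a = 0 → η a = 0 := by
  classical
  by_cases c1 : ∃ i, w₁ i = 0 ∧ w₂ i ≠ 0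
  · obtain ⟨i, hi1, hi2⟩ := c1
    refine ⟨Finsupp.single i 1, ?_, ?_, ?_⟩
    · rw [pr_single_left, hi1, smul_zero]
    · rwa [pr_single_left, one_smul]
    · intro a _ ha
      rw [Finsupp.single_eq_of_ne]
      rintro rfl
      exact hi2 ha
  by_cases c2 : ∃ i, w₁ i ≠ 0 ∧ w₂ i ≠ 0 ∧ w₁ i ≠ w₂ i
  · obtain ⟨i, hi1, hi2, hi3⟩ := c2
    obtain ⟨r, hr1, hr2⟩ := hG.tr2 _ _ hi1 hi2 hi3
    refine ⟨Finsupp.single i r, ?_, ?_, ?_⟩
    · rw [pr_single_left, hr1]
    · rwa [pr_single_left]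
    · intro a _ ha
      rw [Finsupp.single_eq_of_ne]
      rintro rfl
      exact hi2 ha
  have h3 : ∀ i, w₂ i ≠ 0 → w₁ i = w₂ i := by
    intro i hi
    by_contra hne
    by_cases h0 : w₁ i = 0
    · exact c1 ⟨i, h0, hi⟩
    · exact c2 ⟨i, h0, hi, hne⟩
  obtain ⟨i, hi⟩ : ∃ i, w₂ i ≠ 0 := by
    by_contra hc
    push Not at hc
    exact h2 (Finsupp.ext hc)
  obtain ⟨j, hj⟩ : ∃ j, w₁ j ≠ w₂ j := by
    by_contra hc
    push Not at hc
    exact h12 (Finsupp.ext hc)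
  have hj2 : w₂ j = 0 := by
    by_contra hc
    exact hj (h3 j hc)
  have hj1 : w₁ j ≠ 0 := fun hc => hj (by rw [hc, hj2])
  obtain ⟨r, hr⟩ := hG.tr1 (w₁ j) (-w₁ i) hj1
  refine ⟨Finsupp.single i 1 + Finsupp.single j r, ?_, ?_, ?_⟩
  · rw [pr_add_left, pr_single_left, pr_single_left, one_smul, hr, add_neg_cancel]
  · rw [pr_add_left, pr_single_left, pr_single_left, one_smul, hj2, smul_zero, add_zero]
    exact hi
  · intro a ha1 ha2
    rw [Finsupp.add_apply, Finsupp.single_eq_of_ne, Finsupp.single_eq_of_ne, add_zero]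
    · rintro rfl
      exact hj1 ha1
    · rintro rfl
      exact hi ha2

theorem row_v0 {v0 : V} (hG : Good R V v0) (w₁ w₂ : I →₀ V) (h1 : w₁ ≠ 0) (h2 : w₂ ≠ 0)
    (h12 : w₁ ≠ w₂) : ∃ η : I →₀ R, pr η w₁ = 0 ∧ pr η w₂ = v0 ∧
      ∀ a, w₁ a = 0 → w₂ a = 0 → η a = 0 := by
  obtain ⟨η, e1, e2, e3⟩ := row_ne hG w₁ w₂ h1 h2 h12
  obtain ⟨r, hr⟩ := hG.tr1 _ v0 e2
  refine ⟨r • η, ?_, ?_, ?_⟩
  · rw [pr_smul_left, e1, smul_zero]
  · rw [pr_smul_left, hr]
  · intro a ha1 ha2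
    rw [Finsupp.smul_apply, e3 a ha1 ha2, smul_zero]

theorem el_mem_EG {i j : I} (h : i ≠ j) (r : R) : el i j r ∈ EG R V I :=
  Subgroup.subset_closure ⟨i, j, r, h, rfl⟩

/-- a column that kills a vector -/
theorem col_kill {v0 : V} (hG : Good R V v0) (w : I →₀ V) :
    ∃ ρ : I →₀ R, (∀ j, ρ j • v0 = -w j) ∧ ∀ a, w a = 0 → ρ a = 0 := by
  classical
  choose! r hr using fun v : V => hG.tr1 v0 v hG.v0ne
  refine ⟨w.mapRange (fun v => if v = 0 then 0 else r (-v)) (by simp), ?_, ?_⟩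
  · intro j
    rw [Finsupp.mapRange_apply]
    split_ifs with h
    · rw [h, zero_smul, neg_zero]
    · exact hr _
  · intro a ha
    rw [Finsupp.mapRange_apply, if_pos ha]

theorem to_std {v0 : V} (hG : Good R V v0) (w₁ w₂ : I →₀ V) (h1 : w₁ ≠ 0) (h2 : w₂ ≠ 0)
    (h12 : w₁ ≠ w₂) (a b : I) (hab : a ≠ b) (ha1 : w₁ a = 0) (ha2 : w₂ a = 0) (hb1 : w₁ b = 0)
    (hb2 : w₂ b = 0) :
    ∃ g ∈ EG R V I, g w₁ = Finsupp.single a v0 ∧ g w₂ = Finsupp.single b v0 := by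
  classical
  obtain ⟨η₂, p1, p2, p3⟩ := row_v0 hG w₁ w₂ h1 h2 h12
  obtain ⟨η₁, q1, q2, q3⟩ := row_v0 hG w₂ w₁ h2 h1 h12.symm
  obtain ⟨g₁, hg₁, g₁'⟩ := rowB (V := V) (EG R V I) a η₁ (q3 a ha2 ha1)
    (fun q hq _ => el_mem_EG hq.symm _)
  obtain ⟨g₂, hg₂, g₂'⟩ := rowB (V := V) (EG R V I) b η₂ (p3 b hb1 hb2)
    (fun q hq _ => el_mem_EG hq.symm _)
  obtain ⟨ρ₁, r1, r2⟩ := col_kill hG w₁
  obtain ⟨ρ₂, s1, s2⟩ := col_kill hG w₂
  obtain ⟨g₃, hg₃, g₃'⟩ := colA (V := V) (EG R V I) a ρ₁ (r2 a ha1) (fun q hq _ => el_mem_EG hq _)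
  obtain ⟨g₄, hg₄, g₄'⟩ := colA (V := V) (EG R V I) b ρ₂ (s2 b hb2) (fun q hq _ => el_mem_EG hq _)
  refine ⟨g₄ * (g₃ * (g₂ * g₁)), (EG R V I).mul_mem hg₄ ((EG R V I).mul_mem hg₃
    ((EG R V I).mul_mem hg₂ hg₁)), ?_, ?_⟩
  · have e1 : g₁ w₁ = w₁ + Finsupp.single a v0 := by rw [g₁', q2]
    have e2 : g₂ (w₁ + Finsupp.single a v0) = w₁ + Finsupp.single a v0 := by
      rw [g₂', pr_add_right, p1, pr_single_right η₂ a _ (p3 a ha1 ha2), add_zero,
        Finsupp.single_zero, add_zero]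
    have e3 : g₃ (w₁ + Finsupp.single a v0) = Finsupp.single a v0 := by
      rw [g₃', Finsupp.add_apply, ha1, Finsupp.single_eq_same, zero_add]
      ext j
      rw [Finsupp.add_apply, Finsupp.add_apply, sc_apply, r1]
      abel
    have e4 : g₄ (Finsupp.single a v0) = Finsupp.single a v0 := by
      rw [g₄', Finsupp.single_eq_of_ne hab.symm, sc_zero, add_zero]
    rw [Equiv.Perm.mul_apply, Equiv.Perm.mul_apply, Equiv.Perm.mul_apply, e1, e2, e3, e4]
  · have e1 : g₁ w₂ = w₂ := by rw [g₁', q1, Finsupp.single_zero, add_zero]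
    have e2 : g₂ w₂ = w₂ + Finsupp.single b v0 := by rw [g₂', p2]
    have e3 : g₃ (w₂ + Finsupp.single b v0) = w₂ + Finsupp.single b v0 := by
      rw [g₃', Finsupp.add_apply, ha2, Finsupp.single_eq_of_ne hab, add_zero, sc_zero, add_zero]
    have e4 : g₄ (w₂ + Finsupp.single b v0) = Finsupp.single b v0 := by
      rw [g₄', Finsupp.add_apply, hb2, Finsupp.single_eq_same, zero_add]
      ext j
      rw [Finsupp.add_apply, Finsupp.add_apply, sc_apply, s1]
      abel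
    rw [Equiv.Perm.mul_apply, Equiv.Perm.mul_apply, Equiv.Perm.mul_apply, e1, e2, e3, e4]

end tr

theorem t_TR : S_TR := by
  classical
  intro R V I _ _ _ _ v0 hG w₁ w₂ u₁ u₂ h1 h2 h12 k1 k2 k12
  obtain ⟨a, ha⟩ := Infinite.exists_notMem_finset
    (w₁.support ∪ w₂.support ∪ u₁.support ∪ u₂.support)
  obtain ⟨b, hb⟩ := Infinite.exists_notMem_finset
    (w₁.support ∪ w₂.support ∪ u₁.support ∪ u₂.support ∪ {a})
  simp only [Finset.mem_union, Finset.mem_singleton, not_or, Finsupp.notMem_support_iff] at ha hb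
  obtain ⟨⟨⟨a1, a2⟩, a3⟩, a4⟩ := ha
  obtain ⟨⟨⟨⟨b1, b2⟩, b3⟩, b4⟩, hba⟩ := hb
  obtain ⟨g, hg, e1, e2⟩ := to_std hG w₁ w₂ h1 h2 h12 a b (fun h => hba h.symm) a1 a2 b1 b2
  obtain ⟨g', hg', e1', e2'⟩ := to_std hG u₁ u₂ k1 k2 k12 a b (fun h => hba h.symm) a3 a4 b3 b4
  refine ⟨g'⁻¹ * g, (EG R V I).mul_mem ((EG R V I).inv_mem hg') hg, ?_, ?_⟩
  · rw [Equiv.Perm.mul_apply, e1, ← e1']
    exact g'.symm_apply_apply _
  · rw [Equiv.Perm.mul_apply, e2, ← e2']
    exact g'.symm_apply_apply _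

end Pool.Agent.Y891.BH
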